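import Pool.Agent.H.MP_95a718_co.A

namespace Pool.Agent.Results.MP_95a718_co.Full

open Finset SimpleGraph

/-- `δ'(G)`: the entry with index 1 of the degree sequence sorted in nondecreasing order, i.e. the
second smallest degree counted with multiplicity. -/
def delta' {V : Type} [Fintype V] (G : SimpleGraph V) [DecidableRel G.Adj] : ℕ :=
  (((univ : Finset V).val.map fun v => G.degree v).sort (· ≤ ·)).getD 1 0

/-- `L(G)`: the largest number of leaves (vertices of degree 1) of a spanning tree of `G`. -/
noncomputable def maxLeaves {V : Type} (G : SimpleGraph V) : ℕ :=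
  sSup {k | ∃ F ≤ G, F.IsTree ∧ {v | (F.neighborSet v).ncard = 1}.ncard = k}

open Pool.Agent.H.MP_95a718_co

lemma low {V : Type} [Fintype V] (G : SimpleGraph V) [DecidableRel G.Adj] (u v : V)
    (hu : G.degree u < delta' G) (hv : G.degree v < delta' G) : u = v := by
  classical
  by_contra hne
  have h1 : 2 ≤ (univ.filter fun x => G.degree x < delta' G).card :=
    one_lt_card.2 ⟨u, by simpa using hu, v, by simpa using hv, hne⟩
  have h2 : (univ.filter fun x => G.degree x < delta' G).card =
      (((univ : Finset V).val.map fun v => G.degree v).sort (· ≤ ·)).countP (· < delta' G) := by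
    rw [← Multiset.coe_countP, Multiset.sort_eq, Multiset.countP_map]
    rfl
  have h3 := Multiset.pairwise_sort ((univ : Finset V).val.map fun v => G.degree v) (· ≤ ·)
  rw [h2, delta'] at h1
  generalize ((univ : Finset V).val.map fun v => G.degree v).sort (· ≤ ·) = l at h1 h3
  rcases l with _ | ⟨a, _ | ⟨b, l⟩⟩
  · simp at h1
  · simp at h1
  · have : l.countP (· < b) = 0 := by
      rw [List.countP_eq_zero]
      intro x hx
      simpa using List.rel_of_pairwise_cons h3.of_cons hx
    simp only [List.getD_cons_succ, List.getD_cons_zero, List.countP_cons, this] at h1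
    split_ifs at h1 <;> simp_all

/-- Every connected graph with at least two vertices and `L(G) ≤ δ'(G) + 1` has a Hamiltonian
path. -/
theorem result (V : Type) [Fintype V] [DecidableEq V] [Nontrivial V] (G : SimpleGraph V)
    [DecidableRel G.Adj] (hG : G.Connected) (h : maxLeaves G ≤ delta' G + 1) :
    ∃ (a b : V) (p : G.Walk a b), p.IsHamiltonian := by
  obtain ⟨f, k, h1, h2⟩ := exists_long (G := G)
  by_cases hx : ∃ x, ∀ i ≤ k, f i ≠ x
  swap
  · obtain ⟨p, a, b⟩ := h1.walk
    push Not at hx
    exact ⟨_, _, p, a.isHamiltonian_of_mem fun w => (b w).2 (hx w)⟩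
  exfalso
  obtain ⟨T, a, b, c⟩ : ∃ T, Conn G T ∧ (∀ x, x ∉ T → ∃ t ∈ T, G.Adj t x) ∧
      delta' G + 2 ≤ Tᶜ.card := by
    by_cases e : delta' G ≤ G.degree (f 0)
    · exact core hG (low G) h1 h2 hx e
    by_cases e' : delta' G ≤ G.degree (f (k - 0))
    · exact core hG (low G) h1.rev h2 (hx.imp fun x h i hi => h _ (by omega)) e'
    have k0 := h1.inj _ _ (by omega) (by omega) (low G _ _ (not_le.1 e) (not_le.1 e'))
    obtain ⟨y, hy⟩ := hG.preconnected.exists_adj_of_nontrivial (f 0)
    exact absurd hy.symm (h1.ext h2 fun i hi e => hy.ne (by rw [← e, show i = 0 by omega]))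
  obtain ⟨F, d1, d2, d3⟩ := cds a b
  have : {v | (F.neighborSet v).ncard = 1}.ncard ≤ maxLeaves G := by
    refine le_csSup ⟨Fintype.card V, ?_⟩ ⟨F, d1, d2, rfl⟩
    rintro _ ⟨F, -, -, rfl⟩
    simpa using Set.ncard_le_card {v | (F.neighborSet v).ncard = 1}
  have h5 := Set.ncard_le_ncard (s := (Tᶜ : Finset V)) (t := {v | (F.neighborSet v).ncard = 1})
    fun x hx => d3 x (by simpa using hx)
  rw [Set.ncard_coe_finset] at h5
  omega

end Pool.Agent.Results.MP_95a718_co.Full
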